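import Mathlib

set_option autoImplicit false

/-!
# Block structure of solutions of the Yang-Baxter equation of size `p ^ 2`

For every prime `p` an indecomposable irretractable solution on `ZMod p × ZMod p`, whose fibres
are blocks, for which the statement of Q2 fails however the fibres are labelled (`p` odd), and
for which the statements of Q1 and Q2 both fail for one labelling of the fibres (`p` arbitrary).
-/

namespace Pool.Agent.Results.MP_a65784_al.BlockStructure

open Equiv

/-- The map `r (x, y) = (σ_x (y), σ⁻¹_{σ_x (y)} (x))`. -/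
def rmap {X : Type} (σ : X → Perm X) (w : X × X) : X × X :=
  (σ w.1 w.2, (σ (σ w.1 w.2)).symm w.1)

/-- `r × id` on triples. -/
def r12 {X : Type} (r : X × X → X × X) (w : X × X × X) : X × X × X :=
  ((r (w.1, w.2.1)).1, (r (w.1, w.2.1)).2, w.2.2)

/-- `id × r` on triples. -/
def r23 {X : Type} (r : X × X → X × X) (w : X × X × X) : X × X × X :=
  (w.1, r w.2)

/-- `rmap σ` satisfies the braid relation. -/
def IsSolution {X : Type} (σ : X → Perm X) : Prop :=
  ∀ w : X × X × X, r12 (rmap σ) (r23 (rmap σ) (r12 (rmap σ) w)) =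
    r23 (rmap σ) (r12 (rmap σ) (r23 (rmap σ) w))

/-- The group generated by the permutations `σ_x`. -/
def permGroup {X : Type} (σ : X → Perm X) : Subgroup (Perm X) :=
  Subgroup.closure (Set.range σ)

/-- The fibre `{y} × Z`. -/
def fibre {Y Z : Type} (y : Y) : Set (Y × Z) := {x | x.1 = y}

/-- An indecomposable irretractable solution on `Y × Z` for which the fibres `{y} × Z` form a
system of blocks. -/
structure BlockSolution {Y Z : Type} (σ : Y × Z → Perm (Y × Z)) : Prop where
  /-- it is a solution -/
  braid : IsSolution σ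
  /-- it is indecomposable -/
  indecomposable : ∀ x x' : Y × Z, ∃ g ∈ permGroup σ, g x = x'
  /-- it is irretractable -/
  irretractable : ∀ x x' : Y × Z, x ≠ x' → σ x ≠ σ x'
  /-- every element of the group maps every fibre onto a fibre -/
  blocks : ∀ g ∈ permGroup σ, ∀ y : Y, ∃ y' : Y, g '' fibre y = fibre y'

/-- `σ_(y,z) (y', z') = (β_{y,z} (y'), α_{y,z,y'} (z'))`. -/
def Coords {Y Z : Type} (σ : Y × Z → Perm (Y × Z)) (β : Y → Z → Perm Y)
    (α : Y → Z → Y → Perm Z) : Prop :=
  ∀ y z y' z', σ (y, z) (y', z') = (β y z y', α y z y' z')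

/-- The statement of Q1. -/
def P1 {Y Z : Type} (β : Y → Z → Perm Y) : Prop :=
  ∀ (y y' : Y) (z : Z), β y z = β y' z

/-- The statement of Q2. -/
def P2 {Y Z : Type} (β : Y → Z → Perm Y) (α : Y → Z → Y → Perm Z) : Prop :=
  ∀ (y y' y'' : Y) (z z' : Z), α y z y' = α y z' y'' ↔ β y z y' = β y z' y''

/-- The bijection `(y, z) ↦ (y, e_y (z))`. -/
def shear {Y Z : Type} (e : Y → Perm Z) : Perm (Y × Z) where
  toFun x := (x.1, e x.1 x.2)
  invFun x := (x.1, (e x.1).symm x.2)
  left_inv x := by simp
  right_inv x := by simp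

/-- The same solution after every fibre `{y} × Z` has been relabelled with the permutation `e_y`:
the isomorphic copy of `σ` under the bijection `(y, z) ↦ (y, e_y (z))`. -/
def relabel {Y Z : Type} (e : Y → Perm Z) (σ : Y × Z → Perm (Y × Z)) (x : Y × Z) :
    Perm (Y × Z) :=
  ((shear e).symm.trans (σ ((shear e).symm x))).trans (shear e)

section General

variable {Y Z : Type} (e : Y → Perm Z) (σ : Y × Z → Perm (Y × Z))

theorem relabel_apply (x w : Y × Z) :
    relabel e σ (shear e x) (shear e w) = shear e (σ x w) := by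
  simp [relabel]

theorem relabel_symm_apply (x w : Y × Z) :
    (relabel e σ (shear e x)).symm (shear e w) = shear e ((σ x).symm w) := by
  simp [relabel]

theorem rmap_relabel (x w : Y × Z) :
    rmap (relabel e σ) (shear e x, shear e w) =
      (shear e (rmap σ (x, w)).1, shear e (rmap σ (x, w)).2) := by
  simp only [rmap]
  rw [relabel_apply, relabel_symm_apply]

/-- the bijection on triples -/
def E3 (w : (Y × Z) × (Y × Z) × (Y × Z)) : (Y × Z) × (Y × Z) × (Y × Z) :=
  (shear e w.1, shear e w.2.1, shear e w.2.2)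

theorem r12_relabel (w : (Y × Z) × (Y × Z) × (Y × Z)) :
    r12 (rmap (relabel e σ)) (E3 e w) = E3 e (r12 (rmap σ) w) := by
  simp only [r12, E3]
  rw [rmap_relabel]

theorem r23_relabel (w : (Y × Z) × (Y × Z) × (Y × Z)) :
    r23 (rmap (relabel e σ)) (E3 e w) = E3 e (r23 (rmap σ) w) := by
  simp only [r23, E3]
  rw [rmap_relabel]

theorem isSolution_relabel (h : IsSolution σ) : IsSolution (relabel e σ) := by
  intro w
  obtain ⟨v, rfl⟩ : ∃ v, w = E3 e v :=
    ⟨((shear e).symm w.1, (shear e).symm w.2.1, (shear e).symm w.2.2), by simp [E3]⟩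
  rw [r12_relabel, r23_relabel, r12_relabel, h v, r23_relabel, r12_relabel, r23_relabel]

theorem mem_relabel (g : Perm (Y × Z)) (hg : g ∈ permGroup σ) :
    shear e * g * (shear e)⁻¹ ∈ permGroup (relabel e σ) := by
  induction hg using Subgroup.closure_induction with
  | mem g hg =>
    obtain ⟨x, rfl⟩ := hg
    refine Subgroup.subset_closure ⟨shear e x, ?_⟩
    ext w <;> simp [relabel, Perm.mul_apply]
  | one => simp
  | mul a b _ _ ha hb =>
    have : shear e * (a * b) * (shear e)⁻¹ =
        (shear e * a * (shear e)⁻¹) * (shear e * b * (shear e)⁻¹) := by group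
    rw [this]
    exact Subgroup.mul_mem _ ha hb
  | inv a _ ha =>
    have : shear e * a⁻¹ * (shear e)⁻¹ = (shear e * a * (shear e)⁻¹)⁻¹ := by group
    rw [this]
    exact Subgroup.inv_mem _ ha

theorem blocks_of (h : ∀ x, ∃ b : Perm Y, ∀ w, (σ x w).1 = b w.1) :
    ∀ g ∈ permGroup σ, ∀ y : Y, ∃ y' : Y, g '' fibre y = fibre y' := by
  have key : ∀ g ∈ permGroup σ, ∃ b : Perm Y, ∀ w, (g w).1 = b w.1 := by
    intro g hg
    induction hg using Subgroup.closure_induction with
    | mem g hg =>
      obtain ⟨x, rfl⟩ := hg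
      exact h x
    | one => exact ⟨1, fun w => rfl⟩
    | mul a b _ _ ha hb =>
      obtain ⟨u, hu⟩ := ha
      obtain ⟨v, hv⟩ := hb
      exact ⟨u * v, fun w => by rw [Perm.mul_apply, hu, hv, Perm.mul_apply]⟩
    | inv a _ ha =>
      obtain ⟨u, hu⟩ := ha
      refine ⟨u⁻¹, fun w => ?_⟩
      rw [Perm.eq_inv_iff_eq, ← hu]
      simp
  intro g hg y
  obtain ⟨b, hb⟩ := key g hg
  refine ⟨b y, ?_⟩
  ext w
  constructor
  · rintro ⟨v, hv, rfl⟩
    have hv' : v.1 = y := hv
    show (g v).1 = b y
    rw [hb, hv']
  · intro hw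
    have hw' : w.1 = b y := hw
    refine ⟨g⁻¹ w, ?_, by simp⟩
    show (g⁻¹ w).1 = y
    apply b.injective
    rw [← hb, ← hw']
    simp

end General

section Family

variable {p : ℕ}

/-- `t 0 = 1` and `t s = 0` for `s ≠ 0`. -/
def t (s : ZMod p) : ZMod p := if s = 0 then 1 else 0

theorem t_neg (s : ZMod p) : t (-s) = t s := by
  unfold t
  simp [neg_eq_zero]

theorem t_swap (a b : ZMod p) : t (a - b) = t (b - a) := by
  rw [← t_neg (a - b), neg_sub]

/-- The solution `σ_(i,j) (k, l) = (k + j, l - t (k + j - i))`. -/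
def sig (x : ZMod p × ZMod p) : Perm (ZMod p × ZMod p) where
  toFun w := (w.1 + x.2, w.2 - t (w.1 + x.2 - x.1))
  invFun w := (w.1 - x.2, w.2 + t (w.1 - x.1))
  left_inv w := by simp
  right_inv w := by simp

theorem sig_apply (i j k l : ZMod p) :
    sig (i, j) (k, l) = (k + j, l - t (k + j - i)) := rfl

theorem sig_symm_apply (i j k l : ZMod p) :
    (sig (i, j)).symm (k, l) = (k - j, l + t (k - i)) := rfl

theorem rmap_sig (i j k l : ZMod p) :
    rmap sig ((i, j), (k, l)) =
      ((k + j, l - t (k + j - i)), (i - l + t (k + j - i), j + t (k + j - i))) := by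
  simp only [rmap, sig_apply, sig_symm_apply]
  rw [t_swap i (k + j)]
  refine Prod.ext rfl (Prod.ext ?_ rfl)
  show i - (l - t (k + j - i)) = i - l + t (k + j - i)
  ring

theorem isSolution_sig : IsSolution (sig (p := p)) := by
  rintro ⟨⟨i, j⟩, ⟨k, l⟩, ⟨m, n⟩⟩
  simp only [r12, r23, rmap_sig]
  set a := t (k + j - i) with ha
  set c := t (m + l - k) with hc
  have hb1 : m + (j + a) - (i - l + a) = m + l + j - i := by ring
  rw [hb1]
  set b := t (m + l + j - i) with hb
  have hc1 : m + (j + a) + (l - a) - (k + j) = m + l - k := by ring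
  have ha1 : k - n + c + (j + b) - (i - (n - c) + b) = k + j - i := by ring
  rw [hc1, ha1, ← hc, ← ha]
  refine Prod.ext (Prod.ext ?_ ?_) (Prod.ext (Prod.ext ?_ ?_) (Prod.ext ?_ ?_)) <;>
    · simp only
      ring

theorem irretractable_sig [Fact p.Prime] (x x' : ZMod p × ZMod p) (h : sig x = sig x') :
    x = x' := by
  obtain ⟨i, j⟩ := x
  obtain ⟨i', j'⟩ := x'
  have h1 := congrArg (fun g : Perm (ZMod p × ZMod p) => g (i - j, 0)) h
  simp only [sig_apply, Prod.mk.injEq] at h1
  have hj : j = j' := by
    have := h1.1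
    exact add_left_cancel this
  subst hj
  have h2 := h1.2
  have : t (i - j + j - i) = (1 : ZMod p) := by
    unfold t
    rw [if_pos (by ring)]
  rw [this] at h2
  unfold t at h2
  by_cases hi : i - j + j - i' = 0
  · have : i = i' := by
      have h3 : i - j + j - i' = i - i' := by ring
      rw [h3] at hi
      exact sub_eq_zero.mp hi
    rw [this]
  · rw [if_neg hi] at h2
    exfalso
    have h3 : (1 : ZMod p) = 0 := by
      have := h2
      simp at this
    exact one_ne_zero h3

theorem indecomposable_sig [Fact p.Prime] (x x' : ZMod p × ZMod p) :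
    ∃ g ∈ permGroup (sig (p := p)), g x = x' := by
  have hgen : ∀ y : ZMod p × ZMod p, sig y ∈ permGroup (sig (p := p)) := fun y =>
    Subgroup.subset_closure ⟨y, rfl⟩
  -- lowering the second coordinate
  have hlow : ∀ (n : ℕ) (k l : ZMod p), ∃ g ∈ permGroup (sig (p := p)),
      g (k, l) = (k, l - (n : ZMod p)) := by
    intro n
    induction n with
    | zero => intro k l; exact ⟨1, Subgroup.one_mem _, by simp⟩
    | succ n ih =>
      intro k l
      obtain ⟨g, hg, hgl⟩ := ih k l
      refine ⟨sig (k, 0) * g, Subgroup.mul_mem _ (hgen _) hg, ?_⟩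
      rw [Perm.mul_apply, hgl, sig_apply]
      refine Prod.ext (by simp) ?_
      simp only [t]
      rw [if_pos (by ring)]
      push_cast
      ring
  obtain ⟨k, l⟩ := x
  obtain ⟨k', l'⟩ := x'
  -- first move the first coordinate
  have h1 : sig (k', k' - k) (k, l) = (k', l - 1) := by
    rw [sig_apply]
    refine Prod.ext (by simp) ?_
    simp only [t]
    rw [if_pos (by ring)]
  obtain ⟨g, hg, hgl⟩ := hlow (l - 1 - l').val k' (l - 1)
  refine ⟨g * sig (k', k' - k), Subgroup.mul_mem _ hg (hgen _), ?_⟩
  rw [Perm.mul_apply, h1, hgl, ZMod.natCast_zmod_val]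
  refine Prod.ext rfl ?_
  show l - 1 - (l - 1 - l') = l'
  ring

theorem blockSolution_relabel [Fact p.Prime] (e : ZMod p → Perm (ZMod p)) :
    BlockSolution (relabel e (sig (p := p))) where
  braid := isSolution_relabel e _ isSolution_sig
  indecomposable := by
    intro x x'
    obtain ⟨g, hg, hgx⟩ := indecomposable_sig ((shear e).symm x) ((shear e).symm x')
    refine ⟨_, mem_relabel e _ g hg, ?_⟩
    have h1 : (shear e)⁻¹ x = (shear e).symm x := rfl
    rw [Perm.mul_apply, Perm.mul_apply, h1, hgx, apply_symm_apply]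
  irretractable := by
    intro x x' hne h
    apply hne
    have h2 : sig ((shear e).symm x) = sig ((shear e).symm x') := by
      ext w
      all_goals
        have h3 := congrArg (fun g : Perm (ZMod p × ZMod p) => (shear e).symm (g (shear e w))) h
        simp only [relabel, trans_apply, symm_apply_apply] at h3
        rw [h3]
    exact (shear e).symm.injective (irretractable_sig _ _ h2)
  blocks := by
    apply blocks_of
    rintro x
    refine ⟨Equiv.addRight ((shear e).symm x).2, fun w => rfl⟩

end Family

/-- **Main result.** For every prime `p` there is a solution `σ` on `ZMod p × ZMod p` such that: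
every relabelling of the fibres of `σ` gives an indecomposable irretractable solution for which
the fibres are blocks; some relabelling violates the statements of Q1 and of Q2; and if `p` is odd
then every relabelling violates the statement of Q2. -/
theorem result (p : ℕ) (hp : p.Prime) :
    ∃ σ : ZMod p × ZMod p → Perm (ZMod p × ZMod p),
      (∀ e : ZMod p → Perm (ZMod p), BlockSolution (relabel e σ)) ∧
      (∃ (e : ZMod p → Perm (ZMod p)) (β : ZMod p → ZMod p → Perm (ZMod p))
        (α : ZMod p → ZMod p → ZMod p → Perm (ZMod p)),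
          Coords (relabel e σ) β α ∧ ¬ P1 β ∧ ¬ P2 β α) ∧
      (p ≠ 2 → ∀ (e : ZMod p → Perm (ZMod p)) (β : ZMod p → ZMod p → Perm (ZMod p))
        (α : ZMod p → ZMod p → ZMod p → Perm (ZMod p)),
          Coords (relabel e σ) β α → ¬ P2 β α) := by
  have : Fact p.Prime := ⟨hp⟩
  refine ⟨sig, blockSolution_relabel, ?_, ?_⟩
  · -- the labelling: shift the fibre over `0` by one
    let e : ZMod p → Perm (ZMod p) := fun y => Equiv.addRight (t y)
    let β : ZMod p → ZMod p → Perm (ZMod p) := fun y z => Equiv.addRight (z - t y)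
    let α : ZMod p → ZMod p → ZMod p → Perm (ZMod p) := fun y z y' =>
      Equiv.addRight (-t y' - t (y' + (z - t y) - y) + t (y' + (z - t y)))
    refine ⟨e, β, α, ?_, ?_, ?_⟩
    · intro y z y' z'
      refine Prod.ext ?_ ?_
      · show y' + (z + -t y) = y' + (z - t y)
        ring
      · show z' + -t y' - t (y' + (z + -t y) - y) + t (y' + (z + -t y)) =
          z' + (-t y' - t (y' + (z - t y) - y) + t (y' + (z - t y)))
        have h : z + -t y = z - t y := by ring
        rw [h]
        ring
    · intro h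
      have h1 := congrArg (fun g : Perm (ZMod p) => g 0) (h 0 1 0)
      have h2 : (0 : ZMod p) + (0 - t 0) = 0 + (0 - t 1) := h1
      have h3 : t (0 : ZMod p) = 1 := if_pos rfl
      have h4 : t (1 : ZMod p) = 0 := if_neg one_ne_zero
      rw [h3, h4] at h2
      have : (1 : ZMod p) = 0 := by
        have h5 : (0 : ZMod p) + (0 - 1) = -1 := by ring
        rw [h5] at h2
        have h6 := congrArg (fun u => -u) h2
        simp at h6
      exact one_ne_zero this
    · intro h
      -- `y = 1`: compare `y' = 0, z = 0` and `y'' = 1, z' = -1`; both are sent to `0`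
      have h3 : t (0 : ZMod p) = 1 := if_pos rfl
      have h4 : t (1 : ZMod p) = 0 := if_neg one_ne_zero
      have h1 := (h 1 0 1 0 (-1)).mpr (by
        show (0 : ZMod p) + (0 - t 1) = 1 + (-1 - t 1)
        rw [h4]
        ring)
      have h2 := congrArg (fun g : Perm (ZMod p) => g 0) h1
      have h5 : (0 : ZMod p) + (-t 0 - t (0 + (0 - t 1) - 1) + t (0 + (0 - t 1))) =
        0 + (-t 1 - t (1 + (-1 - t 1) - 1) + t (1 + (-1 - t 1))) := h2
      have e1 : (0 : ZMod p) + (0 - 0) - 1 = 1 + (-1 - 0) - 1 := by ring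
      have e2 : (0 : ZMod p) + (0 - 0) = 1 + (-1 - 0) := by ring
      rw [h4, e1, e2, h3] at h5
      have : (1 : ZMod p) = 0 := by
        have h6 := congrArg (fun u => -u) (add_left_cancel h5)
        have h7 := h6
        simp only [neg_zero, zero_sub, neg_add_rev] at h7
        have h8 := add_left_cancel h7
        simp at h8
      exact one_ne_zero this
  · intro h2 e β α hco hP
    -- `2 ≠ 0` in `ZMod p`
    have htwo : (2 : ZMod p) ≠ 0 := by
      intro h
      have h' : ((2 : ℕ) : ZMod p) = 0 := by exact_mod_cast h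
      rw [ZMod.natCast_eq_zero_iff] at h'
      exact h2 ((Nat.prime_dvd_prime_iff_eq hp Nat.prime_two).mp h')
    -- the element of the fibre over `0` that was `(0, 0)`
    have hβ : ∀ y', β 0 (e 0 0) y' = y' := by
      intro y'
      have := hco 0 (e 0 0) y' (e y' 0)
      have h3 : relabel e sig (shear e (0, 0)) (shear e (y', 0)) = shear e (sig (0, 0) (y', 0)) :=
        relabel_apply e sig (0, 0) (y', 0)
      have h4 : (relabel e sig (0, e 0 0) (y', e y' 0)).1 = y' := by
        have : relabel e sig (0, e 0 0) (y', e y' 0) = shear e (sig (0, 0) (y', 0)) := h3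
        rw [this]
        show y' + 0 = y'
        ring
      rw [this] at h4
      exact h4
    have hα : ∀ y', y' ≠ 0 → α 0 (e 0 0) y' = 1 := by
      intro y' hy'
      ext z'
      have h5 := hco 0 (e 0 0) y' z'
      obtain ⟨u, rfl⟩ := (e y').surjective z'
      have h3 : relabel e sig (0, e 0 0) (y', e y' u) = shear e (sig (0, 0) (y', u)) :=
        relabel_apply e sig (0, 0) (y', u)
      have h6 : sig ((0 : ZMod p), (0 : ZMod p)) (y', u) = (y', u) := by
        rw [sig_apply]
        refine Prod.ext (by simp) ?_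
        simp only [t]
        rw [if_neg (by simpa using hy')]
        ring
      rw [h3, h6] at h5
      have h7 := congrArg Prod.snd h5
      exact h7.symm
    have h8 := (hP 0 1 2 (e 0 0) (e 0 0)).mp (by rw [hα 1 one_ne_zero, hα 2 htwo])
    rw [hβ, hβ] at h8
    have : (1 : ZMod p) = 0 := by
      have h9 : (2 : ZMod p) - 1 = 1 := by ring
      rw [← h9, ← h8]
      ring
    exact one_ne_zero this

end Pool.Agent.Results.MP_a65784_al.BlockStructure
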